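import Mathlib

/-!
# The maximal product of a solution of `σ_{n-2} = σ_n`

For positive integers `x_1 ≤ ... ≤ x_n` with `σ_{n-2}(x) = σ_n(x)`, that is with
`∑_{i<j} 1 / (x_i x_j) = 1`, the product `x_1 ... x_n` is at most `v_1 ... v_{n-1} (v_n - 1)`.

Proof.  Compare the reciprocals `a_i = 1 / x_i` with the reciprocals `b_i` of the extremal tuple `z`.
Suppose that the product of the `x_i` is larger, and let `k < n` be the last index for which the
product of the first `k` terms of `x` is smaller than that of `z`.  After `k` the partial products of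
the `b_i` dominate those of the `a_i`, so (weak log-majorisation) the first two elementary symmetric
functions of the tail of `b` are at least those of the tail of `a`.  Before `k` the second elementary
symmetric function of `a` is smaller, since `1 - e_2` is at least the reciprocal of the product, with
equality for `z`; and the first one is also at most that of `b`, by `head_le`.
-/

set_option autoImplicit false

open Finset

namespace Pool.Agent.Results.MP_15ce38_nt.ProductBound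

/-- the sum of the first `k` terms -/
noncomputable def S (f : ℕ → ℝ) (k : ℕ) : ℝ := ∑ i ∈ range k, f i

/-- the second elementary symmetric function of the first `k` terms -/
noncomputable def Q (f : ℕ → ℝ) (k : ℕ) : ℝ := ∑ i ∈ range k, f i * S f i

lemma S_zero (f : ℕ → ℝ) : S f 0 = 0 := by simp [S]

lemma Q_zero (f : ℕ → ℝ) : Q f 0 = 0 := by simp [Q]

lemma S_succ (f : ℕ → ℝ) (k : ℕ) : S f (k + 1) = S f k + f k := by
  simp [S, sum_range_succ]

lemma Q_succ (f : ℕ → ℝ) (k : ℕ) : Q f (k + 1) = Q f k + f k * S f k := by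
  simp [Q, sum_range_succ]

lemma S_add (f : ℕ → ℝ) (k N : ℕ) : S f (k + N) = S f k + S (fun i => f (k + i)) N := by
  simp [S, sum_range_add]

lemma Q_add (f : ℕ → ℝ) (k N : ℕ) :
    Q f (k + N) = Q f k + S f k * S (fun i => f (k + i)) N + Q (fun i => f (k + i)) N := by
  induction N with
  | zero => simp [S_zero, Q_zero]
  | succ N ih =>
    rw [← add_assoc, Q_succ, ih, S_add, S_succ, Q_succ]
    ring

lemma S_sq (f : ℕ → ℝ) (k : ℕ) : S f k ^ 2 = 2 * Q f k + ∑ i ∈ range k, f i ^ 2 := by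
  induction k with
  | zero => simp [S_zero, Q_zero]
  | succ k ih =>
    rw [S_succ, Q_succ, sum_range_succ, add_sq, ih]
    ring

lemma S_nonneg {f : ℕ → ℝ} {k : ℕ} (hf : ∀ i, i < k → 0 ≤ f i) : 0 ≤ S f k :=
  sum_nonneg fun i hi => hf i (mem_range.1 hi)

lemma Q_nonneg {f : ℕ → ℝ} {k : ℕ} (hf : ∀ i, i < k → 0 ≤ f i) : 0 ≤ Q f k :=
  sum_nonneg fun i hi => mul_nonneg (hf i (mem_range.1 hi))
    (S_nonneg fun j hj => hf j (hj.trans (mem_range.1 hi)))

lemma S_congr {f g : ℕ → ℝ} {k : ℕ} (h : ∀ i, i < k → f i = g i) : S f k = S g k :=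
  sum_congr rfl fun i hi => h i (mem_range.1 hi)

lemma Q_congr {f g : ℕ → ℝ} {k : ℕ} (h : ∀ i, i < k → f i = g i) : Q f k = Q g k := by
  refine sum_congr rfl fun i hi => ?_
  rw [h i (mem_range.1 hi), S_congr fun j hj => h j (hj.trans (mem_range.1 hi))]

/-! ### Weak log-majorisation -/

lemma abel (g δ : ℕ → ℝ) (M : ℕ) (hg : ∀ i, i < M → g (i + 1) ≤ g i)
    (hδ : ∀ m, m ≤ M + 1 → 0 ≤ ∑ i ∈ range m, δ i) :
    g M * ∑ i ∈ range (M + 1), δ i ≤ ∑ i ∈ range (M + 1), g i * δ i := by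
  induction M with
  | zero => simp
  | succ M ih =>
    have h1 := ih (fun i hi => hg i (by omega)) (fun m hm => hδ m (by omega))
    have h2 := hg M (by omega)
    have h3 := hδ (M + 1) (by omega)
    rw [sum_range_succ, sum_range_succ (fun i => g i * δ i)]
    have h4 : g (M + 1) * ∑ i ∈ range (M + 1), δ i ≤ g M * ∑ i ∈ range (M + 1), δ i :=
      mul_le_mul_of_nonneg_right h2 h3
    nlinarith

section major

variable {a b : ℕ → ℝ} {N : ℕ}

lemma log_diff (ha : ∀ i, i < N → 0 < a i) (hb : ∀ i, i < N → 0 < b i) {m : ℕ} (hm : m ≤ N) :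
    ∑ i ∈ range m, (Real.log (b i) - Real.log (a i)) =
      Real.log (∏ i ∈ range m, b i) - Real.log (∏ i ∈ range m, a i) := by
  rw [sum_sub_distrib, Real.log_prod, Real.log_prod]
  · intro i hi
    exact (ha i (by rw [mem_range] at hi; omega)).ne'
  · intro i hi
    exact (hb i (by rw [mem_range] at hi; omega)).ne'

lemma log_nonneg' (ha : ∀ i, i < N → 0 < a i) (hb : ∀ i, i < N → 0 < b i)
    (hp : ∀ m, m ≤ N → ∏ i ∈ range m, a i ≤ ∏ i ∈ range m, b i) {m : ℕ} (hm : m ≤ N) :
    0 ≤ ∑ i ∈ range m, (Real.log (b i) - Real.log (a i)) := by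
  rw [log_diff ha hb hm, sub_nonneg]
  exact Real.log_le_log (prod_pos fun i hi => ha i (by rw [mem_range] at hi; omega)) (hp m hm)

lemma one_step {u w : ℝ} (hu : 0 < u) (hw : 0 < w) :
    u * (Real.log w - Real.log u) ≤ w - u := by
  have h := Real.log_le_sub_one_of_pos (div_pos hw hu)
  rw [Real.log_div hw.ne' hu.ne'] at h
  have h2 : u * (Real.log w - Real.log u) ≤ u * (w / u - 1) := mul_le_mul_of_nonneg_left h hu.le
  have h3 : u * (w / u - 1) = w - u := by field_simp
  linarith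

lemma S_le (ha : ∀ i, i < N → 0 < a i) (hb : ∀ i, i < N → 0 < b i)
    (hanti : ∀ i, i + 1 < N → a (i + 1) ≤ a i)
    (hp : ∀ m, m ≤ N → ∏ i ∈ range m, a i ≤ ∏ i ∈ range m, b i) : S a N ≤ S b N := by
  rcases Nat.eq_zero_or_pos N with h0 | h0
  · subst h0
    simp [S_zero]
  obtain ⟨M, rfl⟩ : ∃ M, N = M + 1 := ⟨N - 1, by omega⟩
  have h1 := abel a (fun i => Real.log (b i) - Real.log (a i)) M (fun i hi => hanti i (by omega))
    (fun m hm => log_nonneg' ha hb hp hm)
  have h2 : 0 ≤ a M * ∑ i ∈ range (M + 1), (Real.log (b i) - Real.log (a i)) :=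
    mul_nonneg (ha M (by omega)).le (log_nonneg' ha hb hp le_rfl)
  have h3 : ∑ i ∈ range (M + 1), a i * (Real.log (b i) - Real.log (a i)) ≤
      ∑ i ∈ range (M + 1), (b i - a i) :=
    sum_le_sum fun i hi => one_step (ha i (mem_range.1 hi)) (hb i (mem_range.1 hi))
  rw [sum_sub_distrib] at h3
  unfold S
  linarith

lemma Q_diff (N : ℕ) (ha : ∀ i, i < N → 0 < a i) (hb : ∀ i, i < N → 0 < b i) :
    ∑ i ∈ range N, (a i * (S a N - a i)) * (Real.log (b i) - Real.log (a i)) ≤ Q b N - Q a N := by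
  induction N with
  | zero => simp [Q_zero]
  | succ N ih =>
    have h1 := ih (fun i hi => ha i (by omega)) (fun i hi => hb i (by omega))
    rw [Q_succ, Q_succ, sum_range_succ]
    have h2 : ∑ i ∈ range N, (a i * (S a (N + 1) - a i)) * (Real.log (b i) - Real.log (a i)) =
        ∑ i ∈ range N, (a i * (S a N - a i)) * (Real.log (b i) - Real.log (a i)) +
        a N * ∑ i ∈ range N, a i * (Real.log (b i) - Real.log (a i)) := by
      rw [mul_sum, ← sum_add_distrib]
      refine sum_congr rfl fun i _ => ?_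
      rw [S_succ]
      ring
    have hN := ha N (by omega)
    have hN' := hb N (by omega)
    have h3 : a N * (∑ i ∈ range N, a i * (Real.log (b i) - Real.log (a i))) +
        (a N * S a N) * (Real.log (b N) - Real.log (a N)) ≤ b N * S b N - a N * S a N := by
      unfold S
      rw [mul_sum, mul_sum, mul_sum, sum_mul, ← sum_add_distrib, ← sum_sub_distrib]
      refine sum_le_sum fun i hi => ?_
      rw [mem_range] at hi
      have hi1 := ha i (by omega)
      have hi2 := hb i (by omega)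
      have h4 := one_step (mul_pos hN hi1) (mul_pos hN' hi2)
      rw [Real.log_mul hN'.ne' hi2.ne', Real.log_mul hN.ne' hi1.ne'] at h4
      nlinarith
    rw [h2, S_succ]
    have h5 : a N * (S a N + a N - a N) = a N * S a N := by ring
    rw [h5]
    linarith

lemma pair_le (ha : ∀ i, i < N → 0 < a i) {i : ℕ} (hi : i + 1 < N) :
    a i + a (i + 1) ≤ S a N := by
  obtain ⟨L, rfl⟩ : ∃ L, N = (i + 2) + L := ⟨N - (i + 2), by omega⟩
  rw [S_add, show i + 2 = (i + 1) + 1 by ring, S_succ, S_succ]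
  have h1 : 0 ≤ S a i := S_nonneg fun j hj => (ha j (by omega)).le
  have h2 : 0 ≤ S (fun j => a (i + 1 + 1 + j)) L := S_nonneg fun j hj => (ha _ (by omega)).le
  linarith

lemma single_le (ha : ∀ i, i < N → 0 < a i) {i : ℕ} (hi : i < N) : a i ≤ S a N := by
  obtain ⟨L, rfl⟩ : ∃ L, N = (i + 1) + L := ⟨N - (i + 1), by omega⟩
  rw [S_add, S_succ]
  have h1 : 0 ≤ S a i := S_nonneg fun j hj => (ha j (by omega)).le
  have h2 : 0 ≤ S (fun j => a (i + 1 + j)) L := S_nonneg fun j hj => (ha _ (by omega)).le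
  linarith

lemma Q_aux {M : ℕ} (ha : ∀ i, i < M + 1 → 0 < a i) (hb : ∀ i, i < M + 1 → 0 < b i)
    (hanti : ∀ i, i + 1 < M + 1 → a (i + 1) ≤ a i)
    (hp : ∀ m, m ≤ M + 1 → ∏ i ∈ range m, a i ≤ ∏ i ∈ range m, b i) :
    (a M * (S a (M + 1) - a M)) * ∑ i ∈ range (M + 1), (Real.log (b i) - Real.log (a i)) ≤
      Q b (M + 1) - Q a (M + 1) := by
  refine le_trans (abel (fun i => a i * (S a (M + 1) - a i)) _ M (fun i hi => ?_)
    (fun m hm => log_nonneg' ha hb hp hm)) (Q_diff (M + 1) ha hb)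
  have h1 := hanti i (by omega)
  have h2 := pair_le ha (i := i) (by omega)
  show a (i + 1) * (S a (M + 1) - a (i + 1)) ≤ a i * (S a (M + 1) - a i)
  nlinarith

lemma Q_le (ha : ∀ i, i < N → 0 < a i) (hb : ∀ i, i < N → 0 < b i)
    (hanti : ∀ i, i + 1 < N → a (i + 1) ≤ a i)
    (hp : ∀ m, m ≤ N → ∏ i ∈ range m, a i ≤ ∏ i ∈ range m, b i) : Q a N ≤ Q b N := by
  rcases Nat.eq_zero_or_pos N with h0 | h0
  · subst h0
    simp [Q_zero]
  obtain ⟨M, rfl⟩ : ∃ M, N = M + 1 := ⟨N - 1, by omega⟩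
  have h1 := Q_aux ha hb hanti hp
  have h2 : 0 ≤ (a M * (S a (M + 1) - a M)) *
      ∑ i ∈ range (M + 1), (Real.log (b i) - Real.log (a i)) := by
    refine mul_nonneg (mul_nonneg (ha M (by omega)).le ?_) (log_nonneg' ha hb hp le_rfl)
    have := single_le ha (i := M) (by omega)
    linarith
  linarith

lemma Q_lt (hN : 2 ≤ N) (ha : ∀ i, i < N → 0 < a i) (hb : ∀ i, i < N → 0 < b i)
    (hanti : ∀ i, i + 1 < N → a (i + 1) ≤ a i)
    (hp : ∀ m, m ≤ N → ∏ i ∈ range m, a i ≤ ∏ i ∈ range m, b i)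
    (hlt : ∏ i ∈ range N, a i < ∏ i ∈ range N, b i) : Q a N < Q b N := by
  obtain ⟨M, rfl⟩ : ∃ M, N = (M + 1) + 1 := ⟨N - 2, by omega⟩
  have h1 := Q_aux ha hb hanti hp
  have h2 : 0 < (a (M + 1) * (S a (M + 1 + 1) - a (M + 1))) *
      ∑ i ∈ range (M + 1 + 1), (Real.log (b i) - Real.log (a i)) := by
    refine mul_pos (mul_pos (ha _ (by omega)) ?_) ?_
    · have h3 := pair_le ha (i := M) (by omega)
      have h4 := ha M (by omega)
      linarith
    · rw [log_diff ha hb le_rfl, sub_pos]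
      exact Real.log_lt_log (prod_pos fun i hi => ha i (mem_range.1 hi)) hlt
  linarith

end major

/-! ### The extremal sequence -/

/-- the pair `(v_1 ... v_k, ∑_{i ≤ k} v_1 ... v_k / v_i)` -/
def ps : ℕ → ℕ × ℕ
  | 0 => (1, 0)
  | k + 1 => ((ps k).1 * (1 + (ps k).2), (ps k).2 * (1 + (ps k).2) + (ps k).1)

/-- `v_{k+1}` -/
def z (k : ℕ) : ℕ := 1 + (ps k).2

lemma z_pos (k : ℕ) : 0 < z k := by unfold z; omega

lemma ps_fst (k : ℕ) : (ps k).1 = ∏ i ∈ range k, z i := by
  induction k with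
  | zero => simp [ps]
  | succ k ih => rw [prod_range_succ, ← ih]; rfl

lemma P_pos (k : ℕ) : 0 < (ps k).1 := by
  rw [ps_fst]
  exact prod_pos fun i _ => z_pos i

/-- the reciprocals of the extremal sequence -/
noncomputable def bz (i : ℕ) : ℝ := 1 / (z i : ℝ)

lemma bz_pos (i : ℕ) : 0 < bz i := by
  have : (0 : ℝ) < z i := by exact_mod_cast z_pos i
  unfold bz
  positivity

lemma S_bz (k : ℕ) : S bz k * ((ps k).1 : ℝ) = ((ps k).2 : ℝ) := by
  induction k with
  | zero => simp [S_zero, ps]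
  | succ k ih =>
    have h1 : ((ps (k + 1)).1 : ℝ) = (ps k).1 * (1 + (ps k).2) := by
      show (((ps k).1 * (1 + (ps k).2) : ℕ) : ℝ) = _
      push_cast
      ring
    have h2 : ((ps (k + 1)).2 : ℝ) = (ps k).2 * (1 + (ps k).2) + (ps k).1 := by
      show (((ps k).2 * (1 + (ps k).2) + (ps k).1 : ℕ) : ℝ) = _
      push_cast
      ring
    have h3 : bz k = 1 / (1 + ((ps k).2 : ℝ)) := by
      unfold bz z
      push_cast
      rfl
    have h4 : (0 : ℝ) < 1 + ((ps k).2 : ℝ) := by positivity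
    rw [S_succ, h1, h2, h3]
    field_simp
    linear_combination (1 + ((ps k).2 : ℝ)) * ih

lemma Q_bz (k : ℕ) : Q bz k = 1 - 1 / ((ps k).1 : ℝ) := by
  induction k with
  | zero => simp [Q_zero, ps]
  | succ k ih =>
    have h1 : ((ps (k + 1)).1 : ℝ) = (ps k).1 * (1 + (ps k).2) := by
      show (((ps k).1 * (1 + (ps k).2) : ℕ) : ℝ) = _
      push_cast
      ring
    have h3 : bz k = 1 / (1 + ((ps k).2 : ℝ)) := by
      unfold bz z
      push_cast
      rfl
    have h4 : (0 : ℝ) < 1 + ((ps k).2 : ℝ) := by positivity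
    have h5 : (0 : ℝ) < (ps k).1 := by exact_mod_cast P_pos k
    have h6 : S bz k = ((ps k).2 : ℝ) / (ps k).1 := by
      rw [eq_div_iff h5.ne']
      exact S_bz k
    rw [Q_succ, ih, h1, h3, h6]
    field_simp
    ring

lemma ps_growth (j : ℕ) (hj : 2 ≤ j) : (ps j).1 + 1 ≤ (ps j).2 := by
  induction j, hj using Nat.le_induction with
  | base => decide
  | succ j _ ih =>
    show (ps j).1 * (1 + (ps j).2) + 1 ≤ (ps j).2 * (1 + (ps j).2) + (ps j).1
    nlinarith [P_pos j]

/-! ### Integrality -/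

lemma integral (x : ℕ → ℕ) (k : ℕ) (hx : ∀ i, i < k → 0 < x i) :
    ∃ s q : ℕ, S (fun i => 1 / (x i : ℝ)) k * ((∏ i ∈ range k, x i : ℕ) : ℝ) = s ∧
      Q (fun i => 1 / (x i : ℝ)) k * ((∏ i ∈ range k, x i : ℕ) : ℝ) = q := by
  induction k with
  | zero => exact ⟨0, 0, by simp [S_zero], by simp [Q_zero]⟩
  | succ k ih =>
    obtain ⟨s, q, h1, h2⟩ := ih (fun i hi => hx i (by omega))
    have h3 : (0 : ℝ) < x k := by exact_mod_cast hx k (by omega)
    refine ⟨s * x k + ∏ i ∈ range k, x i, q * x k + s, ?_, ?_⟩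
    · rw [S_succ, prod_range_succ]
      push_cast
      push_cast at h1
      field_simp
      linear_combination (x k : ℝ) * h1
    · rw [Q_succ, prod_range_succ]
      push_cast
      push_cast at h1 h2
      field_simp
      linear_combination (x k : ℝ) * h2 + h1

lemma Q_gap (x : ℕ → ℕ) (k : ℕ) (hx : ∀ i, i < k → 0 < x i)
    (hQ : Q (fun i => 1 / (x i : ℝ)) k < 1) :
    Q (fun i => 1 / (x i : ℝ)) k ≤ 1 - 1 / ((∏ i ∈ range k, x i : ℕ) : ℝ) := by
  obtain ⟨s, q, -, h2⟩ := integral x k hx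
  have hP : 0 < ∏ i ∈ range k, x i := prod_pos fun i hi => hx i (mem_range.1 hi)
  have hPr : (0 : ℝ) < ((∏ i ∈ range k, x i : ℕ) : ℝ) := by exact_mod_cast hP
  have h3 : (q : ℝ) < ((∏ i ∈ range k, x i : ℕ) : ℝ) := by
    rw [← h2]
    nlinarith
  have h4 : q + 1 ≤ ∏ i ∈ range k, x i := by exact_mod_cast h3
  have h5 : (q : ℝ) + 1 ≤ ((∏ i ∈ range k, x i : ℕ) : ℝ) := by exact_mod_cast h4
  have h6 : Q (fun i => 1 / (x i : ℝ)) k = q / ((∏ i ∈ range k, x i : ℕ) : ℝ) := by
    rw [eq_div_iff hPr.ne', h2]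
  rw [h6, div_le_iff₀ hPr, sub_mul, one_mul, div_mul_cancel₀ _ hPr.ne']
  linarith

/-! ### The comparison of the heads -/

lemma anti_of (x : ℕ → ℕ) (k : ℕ) (hx : ∀ i, i < k → 0 < x i)
    (hmono : ∀ i, i + 1 < k → x i ≤ x (i + 1)) :
    ∀ i j, i ≤ j → j < k → 1 / (x j : ℝ) ≤ 1 / (x i : ℝ) := by
  intro i j hij hj
  have h : x i ≤ x j := by
    induction j, hij using Nat.le_induction with
    | base => exact le_rfl
    | succ j _ ih => exact (ih (by omega)).trans (hmono j (by omega))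
  have h1 : (0 : ℝ) < x i := by exact_mod_cast hx i (by omega)
  exact one_div_le_one_div_of_le h1 (by exact_mod_cast h)

lemma final_ineq (M P : ℝ) (hP : 0 < P) (h : P + 1 ≤ M) :
    1 / (M + 2) * (1 / M) ≤ (1 / (M + 1)) ^ 2 + (1 / (M * (1 + M) + P + 1)) ^ 2 := by
  have hM : 0 < M := by linarith
  have h4 : 1 / (M * (M + 2)) ≤ 1 / (M * (1 + M) + P + 1) :=
    one_div_le_one_div_of_le (by positivity) (by nlinarith)
  have h5 : (1 / (M * (M + 2))) ^ 2 ≤ (1 / (M * (1 + M) + P + 1)) ^ 2 :=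
    pow_le_pow_left₀ (by positivity) h4 2
  have h6 : (1 / (M + 1)) ^ 2 + (1 / (M * (M + 2))) ^ 2 - 1 / (M + 2) * (1 / M) =
      1 / ((M + 1) ^ 2 * (M * (M + 2)) ^ 2) := by
    field_simp
    ring
  have h7 : 0 ≤ 1 / ((M + 1) ^ 2 * (M * (M + 2)) ^ 2) := by positivity
  linarith

/-- If the product of the first `k` of the `x_i` is smaller than that of the first `k` of the `v_i`
and `∑_{i<j≤k} 1 / (x_i x_j) < 1`, then `∑_{i≤k} 1 / x_i ≤ ∑_{i≤k} 1 / v_i`. -/
lemma head_le (x : ℕ → ℕ) (k : ℕ) (hx : ∀ i, i < k → 0 < x i)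
    (hmono : ∀ i, i + 1 < k → x i ≤ x (i + 1))
    (hQ : Q (fun i => 1 / (x i : ℝ)) k < 1)
    (hlt : ∏ i ∈ range k, x i < (ps k).1) :
    S (fun i => 1 / (x i : ℝ)) k ≤ S bz k := by
  by_contra hcon
  push Not at hcon
  set a : ℕ → ℝ := fun i => 1 / (x i : ℝ) with ha
  have hapos : ∀ i, i < k → 0 < a i := fun i hi => by
    have : (0 : ℝ) < x i := by exact_mod_cast hx i hi
    rw [ha]
    positivity
  -- the first index where the sequences differ
  have hex : ∃ j, j < k ∧ x j ≠ z j := by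
    by_contra hno
    push Not at hno
    rw [ps_fst] at hlt
    exact absurd (prod_congr rfl fun i hi => hno i (mem_range.1 hi)) hlt.ne
  classical
  set j := Nat.find hex with hj
  obtain ⟨hjk, hjne⟩ := Nat.find_spec hex
  rw [← hj] at hjk hjne
  have hbefore : ∀ i, i < j → a i = bz i := fun i hi => by
    have h1 := Nat.find_min hex (m := i) (by rw [← hj]; exact hi)
    push Not at h1
    rw [ha]
    show 1 / (x i : ℝ) = bz i
    rw [h1 (by omega)]
    rfl
  set P : ℕ := (ps j).1 with hP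
  set m : ℕ := (ps j).2 with hm
  have hPpos : (0 : ℝ) < P := by exact_mod_cast P_pos j
  have hSj : S a j = (m : ℝ) / P := by
    rw [S_congr hbefore, eq_div_iff hPpos.ne']
    exact S_bz j
  have hQj : Q a j = 1 - 1 / (P : ℝ) := by
    rw [Q_congr hbefore]
    exact Q_bz j
  obtain ⟨N, hN⟩ : ∃ N, k = j + N := ⟨k - j, by omega⟩
  have hN1 : 1 ≤ N := by omega
  set a' : ℕ → ℝ := fun i => a (j + i) with ha'
  have ha'pos : ∀ i, i < N → 0 < a' i := fun i hi => hapos (j + i) (by omega)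
  have hanti := anti_of x k hx hmono
  have ha'le : ∀ i, i < N → a' i ≤ a' 0 := fun i hi => by
    have := hanti j (j + i) (by omega) (by omega)
    exact this
  have hQk : Q a k = Q a j + S a j * S a' N + Q a' N := by
    rw [hN]
    exact Q_add a j N
  have hSk : S a k = S a j + S a' N := by
    rw [hN]
    exact S_add a j N
  have hSbk : S bz k = S bz j + S (fun i => bz (j + i)) N := by
    rw [hN]
    exact S_add bz j N
  have hQ'0 : 0 ≤ Q a' N := Q_nonneg fun i hi => (ha'pos i hi).le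
  have hr0 : a' 0 ≤ S a' N := single_le ha'pos (by omega)
  have ha'0 : a' 0 = 1 / (x j : ℝ) := by
    show a (j + 0) = _
    rw [add_zero]
  have hxjpos : (0 : ℝ) < x j := by exact_mod_cast hx j hjk
  have hsumsq : ∑ i ∈ range N, a' i ^ 2 ≤ a' 0 * S a' N := by
    unfold S
    rw [mul_sum]
    refine sum_le_sum fun i hi => ?_
    rw [mem_range] at hi
    have h1 := ha'le i hi
    have h2 := ha'pos i hi
    nlinarith
  have hm0 : (0 : ℝ) ≤ m := Nat.cast_nonneg _
  -- the tail sum of `a` times `m` is less than `1`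
  have hrm : (m : ℝ) * S a' N + Q a' N * P < 1 := by
    rw [hQk, hQj, hSj] at hQ
    have h1 : (m : ℝ) / P * S a' N + Q a' N < 1 / P := by linarith
    rw [lt_div_iff₀ hPpos] at h1
    have h2 : ((m : ℝ) / P * S a' N + Q a' N) * P = (m : ℝ) * S a' N + Q a' N * P := by
      field_simp
    linarith
  -- `x j ≥ m + 2`
  have hxj : m + 2 ≤ x j := by
    have h1 : (m : ℝ) * (1 / (x j : ℝ)) < 1 := by
      rw [← ha'0]
      have : 0 ≤ Q a' N * P := mul_nonneg hQ'0 hPpos.le
      nlinarith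
    rw [mul_one_div, div_lt_one hxjpos] at h1
    have h2 : m < x j := by exact_mod_cast h1
    have h3 : x j ≠ 1 + m := hjne
    omega
  have hxjr : (m : ℝ) + 2 ≤ x j := by exact_mod_cast hxj
  have ha'0le : a' 0 ≤ 1 / ((m : ℝ) + 2) := by
    rw [ha'0]
    exact one_div_le_one_div_of_le (by positivity) hxjr
  have hbzj : bz j = 1 / ((m : ℝ) + 1) := by
    show 1 / ((z j : ℕ) : ℝ) = _
    unfold z
    push_cast
    rw [add_comm]
  -- comparison of the second symmetric functions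
  have hQle : Q a k ≤ Q bz k := by
    have h1 := Q_gap x k hx hQ
    rw [Q_bz]
    have h2 : (0 : ℝ) < ((∏ i ∈ range k, x i : ℕ) : ℝ) := by
      exact_mod_cast prod_pos fun i hi => hx i (mem_range.1 hi)
    have h3 : ((∏ i ∈ range k, x i : ℕ) : ℝ) ≤ ((ps k).1 : ℝ) := by exact_mod_cast hlt.le
    have h4 := one_div_le_one_div_of_le h2 h3
    linarith
  have hsq : ∑ i ∈ range N, bz (j + i) ^ 2 < ∑ i ∈ range N, a' i ^ 2 := by
    have h1 := S_sq a k
    have h2 := S_sq bz k
    have h3 : S bz k ^ 2 < S a k ^ 2 := by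
      have h4 : 0 ≤ S bz k := S_nonneg fun i _ => (bz_pos i).le
      exact pow_lt_pow_left₀ hcon h4 two_ne_zero
    have h5 : ∑ i ∈ range k, a i ^ 2 = ∑ i ∈ range j, a i ^ 2 + ∑ i ∈ range N, a' i ^ 2 := by
      rw [hN, sum_range_add]
    have h6 : ∑ i ∈ range k, bz i ^ 2 = ∑ i ∈ range j, bz i ^ 2 +
        ∑ i ∈ range N, bz (j + i) ^ 2 := by
      rw [hN, sum_range_add]
    have h7 : ∑ i ∈ range j, a i ^ 2 = ∑ i ∈ range j, bz i ^ 2 :=
      sum_congr rfl fun i hi => by rw [hbefore i (mem_range.1 hi)]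
    linarith
  rcases Nat.lt_or_ge N 2 with hN2 | hN2
  · -- one term only
    have hN' : N = 1 := by omega
    have hS1 : S a' N = a' 0 := by rw [hN']; simp [S]
    have hS2 : S (fun i => bz (j + i)) N = bz j := by rw [hN']; simp [S]
    have h1 : 1 / ((m : ℝ) + 2) ≤ 1 / ((m : ℝ) + 1) :=
      one_div_le_one_div_of_le (by positivity) (by linarith)
    rw [hSk, hSbk, S_congr hbefore, hS1, hS2, hbzj] at hcon
    linarith
  -- at least two terms
  have hb2 : bz j ^ 2 + bz (j + 1) ^ 2 ≤ ∑ i ∈ range N, bz (j + i) ^ 2 := by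
    obtain ⟨L, rfl⟩ : ∃ L, N = 2 + L := ⟨N - 2, by omega⟩
    rw [sum_range_add]
    have h1 : 0 ≤ ∑ i ∈ range L, bz (j + (2 + i)) ^ 2 := sum_nonneg fun i _ => sq_nonneg _
    have h2 : ∑ i ∈ range 2, bz (j + i) ^ 2 = bz j ^ 2 + bz (j + 1) ^ 2 := by
      simp [sum_range_succ]
    linarith
  have hr0' : 0 < S a' N := lt_of_lt_of_le (ha'pos 0 (by omega)) hr0
  rcases Nat.lt_or_ge j 2 with hj2 | hj2
  · have hj01 : j = 0 ∨ j = 1 := by omega
    rcases hj01 with hj0 | hj1
    · -- `x_1 ≥ 2`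
      have hP1 : (P : ℝ) = 1 := by rw [hP, hj0]; simp [ps]
      have hm1 : (m : ℝ) = 0 := by rw [hm, hj0]; simp [ps]
      have hb1 : bz j = 1 := by rw [hbzj, hm1]; norm_num
      have h1 : 0 ≤ bz (j + 1) ^ 2 := sq_nonneg _
      have h2 := S_sq a' N
      rw [hm1, hP1] at hrm
      rw [hm1] at ha'0le
      have h3 : a' 0 * S a' N ≤ 1 / 2 * S a' N :=
        mul_le_mul_of_nonneg_right (by norm_num at ha'0le ⊢; exact ha'0le) hr0'.le
      have h4 : S a' N ^ 2 < 2 + 1 / 2 * S a' N := by linarith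
      have h5 : S a' N < 2 := by nlinarith
      rw [hb1] at hb2
      linarith
    · -- `x_1 = 1`, `x_2 ≥ 3`
      have hP1 : (P : ℝ) = 1 := by rw [hP, hj1]; simp [ps]
      have hm1 : (m : ℝ) = 1 := by rw [hm, hj1]; simp [ps]
      have hb1 : bz j = 1 / 2 := by rw [hbzj, hm1]; norm_num
      have hb2' : bz (j + 1) = 1 / 4 := by
        rw [hj1]
        unfold bz z
        simp [ps]
      have h2 := S_sq a' N
      rw [hm1, hP1] at hrm
      rw [hm1] at ha'0le
      have h3 : a' 0 * S a' N ≤ 1 / 3 * S a' N :=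
        mul_le_mul_of_nonneg_right (by norm_num at ha'0le ⊢; exact ha'0le) hr0'.le
      have h4 : S a' N + (S a' N ^ 2 - 1 / 3 * S a' N) / 2 < 1 := by linarith
      have h5 : S a' N < 15 / 16 := by nlinarith
      rw [hb1, hb2'] at hb2
      norm_num at hb2
      linarith
  · have h1 := ps_growth j hj2
    rw [← hP, ← hm] at h1
    have h1r : (P : ℝ) + 1 ≤ m := by exact_mod_cast h1
    have hmpos : (0 : ℝ) < m := by linarith
    have h2 : S a' N < 1 / m := by
      rw [lt_div_iff₀ hmpos]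
      have : 0 ≤ Q a' N * P := mul_nonneg hQ'0 hPpos.le
      linarith
    have h3 : a' 0 * S a' N ≤ 1 / ((m : ℝ) + 2) * (1 / m) := by
      apply mul_le_mul ha'0le h2.le hr0'.le
      positivity
    have hbz1 : bz (j + 1) = 1 / ((m : ℝ) * (1 + m) + P + 1) := by
      unfold bz z
      show 1 / (((1 + (m * (1 + m) + P) : ℕ)) : ℝ) = _
      push_cast
      ring_nf
    have h6 := final_ineq (m : ℝ) (P : ℝ) hPpos h1r
    rw [hbzj, hbz1] at hb2
    linarith

/-! ### The main comparison -/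

lemma prod_recip (x : ℕ → ℕ) (k : ℕ) :
    ∏ i ∈ range k, (1 / (x i : ℝ)) = 1 / ((∏ i ∈ range k, x i : ℕ) : ℝ) := by
  push_cast
  rw [prod_div_distrib, prod_const_one]

lemma s_pos (k : ℕ) (hk : 1 ≤ k) : 0 < (ps k).2 := by
  obtain ⟨j, rfl⟩ : ∃ j, k = j + 1 := ⟨k - 1, by omega⟩
  show 0 < (ps j).2 * (1 + (ps j).2) + (ps j).1
  have := P_pos j
  omega

theorem core (n : ℕ) (hn : 2 ≤ n) (x : ℕ → ℕ) (hx : ∀ i, i < n → 0 < x i)
    (hmono : ∀ i, i + 1 < n → x i ≤ x (i + 1))
    (hQ : Q (fun i => 1 / (x i : ℝ)) n = 1) :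
    ∏ i ∈ range n, x i ≤ (ps (n - 1)).1 * (ps (n - 1)).2 := by
  by_contra hcon
  push Not at hcon
  obtain ⟨q, rfl⟩ : ∃ q, n = q + 1 := ⟨n - 1, by omega⟩
  rw [show q + 1 - 1 = q by omega] at hcon
  have hq : 1 ≤ q := by omega
  -- the extremal tuple
  set zz : ℕ → ℕ := fun i => if i = q then (ps q).2 else z i with hzz
  have hzzpos : ∀ i, 0 < zz i := fun i => by
    rw [hzz]
    dsimp only
    split_ifs with h
    · exact s_pos q hq
    · exact z_pos i
  have hzz1 : ∀ k, k ≤ q → ∏ i ∈ range k, zz i = (ps k).1 := fun k hk => by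
    rw [ps_fst]
    refine prod_congr rfl fun i hi => ?_
    rw [mem_range] at hi
    rw [hzz]
    dsimp only
    rw [if_neg (by omega)]
  have hzz2 : ∏ i ∈ range (q + 1), zz i = (ps q).1 * (ps q).2 := by
    rw [prod_range_succ, hzz1 q le_rfl, hzz]
    simp
  set a : ℕ → ℝ := fun i => 1 / (x i : ℝ) with ha
  set b : ℕ → ℝ := fun i => 1 / (zz i : ℝ) with hb
  have hapos : ∀ i, i < q + 1 → 0 < a i := fun i hi => by
    have : (0 : ℝ) < x i := by exact_mod_cast hx i hi
    rw [ha]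
    positivity
  have hbpos : ∀ i, 0 < b i := fun i => by
    have : (0 : ℝ) < zz i := by exact_mod_cast hzzpos i
    rw [hb]
    positivity
  have hbb : ∀ i, i < q → b i = bz i := fun i hi => by
    rw [hb, hzz]
    dsimp only
    rw [if_neg (by omega)]
    rfl
  have hPq : (0 : ℝ) < (ps q).1 := by exact_mod_cast P_pos q
  have hsq : (0 : ℝ) < (ps q).2 := by exact_mod_cast s_pos q hq
  have hQb : Q b (q + 1) = 1 := by
    rw [Q_succ, Q_congr hbb, S_congr hbb, Q_bz]
    have h1 : S bz q = ((ps q).2 : ℝ) / (ps q).1 := by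
      rw [eq_div_iff hPq.ne']
      exact S_bz q
    have h2 : b q = 1 / ((ps q).2 : ℝ) := by
      rw [hb, hzz]
      simp
    rw [h1, h2]
    field_simp
    ring
  have hAP : ∀ k, ∏ i ∈ range k, a i = 1 / ((∏ i ∈ range k, x i : ℕ) : ℝ) := prod_recip x
  have hBP : ∀ k, ∏ i ∈ range k, b i = 1 / ((∏ i ∈ range k, zz i : ℕ) : ℝ) := prod_recip zz
  have hXpos : ∀ k, k ≤ q + 1 → (0 : ℝ) < ((∏ i ∈ range k, x i : ℕ) : ℝ) := fun k hk => by
    exact_mod_cast prod_pos fun i hi => hx i (by rw [mem_range] at hi; omega)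
  have hZpos : ∀ k, (0 : ℝ) < ((∏ i ∈ range k, zz i : ℕ) : ℝ) := fun k => by
    exact_mod_cast prod_pos fun i _ => hzzpos i
  -- the last index where the product of `x` is smaller
  classical
  set k := Nat.findGreatest (fun k => ∏ i ∈ range k, x i < (ps k).1) q with hk
  have hkq : k ≤ q := Nat.findGreatest_le q
  have hafter : ∀ m, k < m → m ≤ q + 1 → ∏ i ∈ range m, zz i ≤ ∏ i ∈ range m, x i := by
    intro m h1 h2
    rcases Nat.lt_or_ge q m with h3 | h3
    · rw [show m = q + 1 by omega, hzz2]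
      exact hcon.le
    · rw [hzz1 m h3]
      have := Nat.findGreatest_is_greatest (P := fun k => ∏ i ∈ range k, x i < (ps k).1) h1 h3
      exact not_lt.1 this
  have hbefore : ∏ i ∈ range k, x i ≤ ∏ i ∈ range k, zz i ∧
      (k ≠ 0 → ∏ i ∈ range k, x i < (ps k).1) := by
    rcases Nat.eq_zero_or_pos k with h0 | h0
    · rw [h0]
      simp
    · have h1 := Nat.findGreatest_of_ne_zero (P := fun k => ∏ i ∈ range k, x i < (ps k).1)
        hk.symm (by omega)
      refine ⟨?_, fun _ => h1⟩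
      rw [hzz1 k hkq]
      exact h1.le
  obtain ⟨N, hN⟩ : ∃ N, q + 1 = k + N := ⟨q + 1 - k, by omega⟩
  set a' : ℕ → ℝ := fun i => a (k + i) with ha'
  set b' : ℕ → ℝ := fun i => b (k + i) with hb'
  have ha'pos : ∀ i, i < N → 0 < a' i := fun i hi => hapos (k + i) (by omega)
  have hb'pos : ∀ i, i < N → 0 < b' i := fun i _ => hbpos (k + i)
  have hanti : ∀ i, i + 1 < N → a' (i + 1) ≤ a' i := fun i hi =>
    anti_of x (q + 1) hx hmono (k + i) (k + (i + 1)) (by omega) (by omega)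
  have hAk : 0 < ∏ i ∈ range k, a i := prod_pos fun i hi => hapos i (by
    rw [mem_range] at hi
    omega)
  have hBk : 0 < ∏ i ∈ range k, b i := prod_pos fun i _ => hbpos i
  have hABk : ∏ i ∈ range k, b i ≤ ∏ i ∈ range k, a i := by
    rw [hAP, hBP]
    exact one_div_le_one_div_of_le (hXpos k (by omega)) (by exact_mod_cast hbefore.1)
  have htail : ∀ m, m ≤ N → ∏ i ∈ range m, a' i ≤ ∏ i ∈ range m, b' i := by
    intro m hm
    rcases Nat.eq_zero_or_pos m with h0 | h0
    · rw [h0]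
      simp
    have h1 : ∏ i ∈ range (k + m), a i ≤ ∏ i ∈ range (k + m), b i := by
      rw [hAP, hBP]
      exact one_div_le_one_div_of_le (hZpos _) (by exact_mod_cast hafter (k + m) (by omega) (by omega))
    rw [prod_range_add, prod_range_add] at h1
    have h2 : 0 ≤ ∏ i ∈ range m, b' i := prod_nonneg fun i _ => (hbpos _).le
    have h3 : (∏ i ∈ range k, b i) * ∏ i ∈ range m, b' i ≤
        (∏ i ∈ range k, a i) * ∏ i ∈ range m, b' i := mul_le_mul_of_nonneg_right hABk h2
    exact le_of_mul_le_mul_left (h1.trans h3) hAk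
  have hS' : S a' N ≤ S b' N := S_le ha'pos hb'pos hanti htail
  have hQ' : Q a' N ≤ Q b' N := Q_le ha'pos hb'pos hanti htail
  rcases Nat.eq_zero_or_pos k with h0 | h0
  · -- strict domination everywhere
    have ha0 : ∀ i, a' i = a i := fun i => by rw [ha', h0]; simp
    have hb0 : ∀ i, b' i = b i := fun i => by rw [hb', h0]; simp
    have hN' : N = q + 1 := by omega
    have hlt : ∏ i ∈ range N, a' i < ∏ i ∈ range N, b' i := by
      rw [prod_congr rfl fun i _ => ha0 i, prod_congr rfl fun i _ => hb0 i, hN', hAP, hBP]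
      apply one_div_lt_one_div_of_lt (hZpos _)
      rw [hzz2]
      exact_mod_cast hcon
    have h1 := Q_lt (by omega) ha'pos hb'pos hanti htail hlt
    rw [Q_congr fun i _ => ha0 i, Q_congr fun i _ => hb0 i, hN', hQ, hQb] at h1
    exact lt_irrefl _ h1
  · have hXk := hbefore.2 (by omega)
    have hQsplit := Q_add a k N
    have hQsplit' := Q_add b k N
    rw [← hN, hQ] at hQsplit
    rw [← hN, hQb] at hQsplit'
    change 1 = Q a k + S a k * S a' N + Q a' N at hQsplit
    change 1 = Q b k + S b k * S b' N + Q b' N at hQsplit'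
    have hN0 : 0 < N := by omega
    have hSapos : 0 < S a k := by
      have := single_le (N := k) (fun i hi => hapos i (by omega)) (i := 0) h0
      exact lt_of_lt_of_le (hapos 0 (by omega)) this
    have hSa'pos : 0 < S a' N := by
      have := single_le ha'pos (i := 0) hN0
      exact lt_of_lt_of_le (ha'pos 0 hN0) this
    have hQa'0 : 0 ≤ Q a' N := Q_nonneg fun i hi => (ha'pos i hi).le
    have hQak : Q a k < 1 := by
      have := mul_pos hSapos hSa'pos
      linarith
    have hbk : ∀ i, i < k → b i = bz i := fun i hi => hbb i (by omega)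
    have hhead : S a k ≤ S b k := by
      rw [S_congr hbk]
      exact head_le x k (fun i hi => hx i (by omega)) (fun i hi => hmono i (by omega)) hQak hXk
    have hQhead : Q a k < Q b k := by
      rw [Q_congr hbk, Q_bz]
      have h1 := Q_gap x k (fun i hi => hx i (by omega)) hQak
      have h2 : 1 / ((ps k).1 : ℝ) < 1 / ((∏ i ∈ range k, x i : ℕ) : ℝ) :=
        one_div_lt_one_div_of_lt (hXpos k (by omega)) (by exact_mod_cast hXk)
      linarith
    have h3 : S a k * S a' N ≤ S b k * S b' N :=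
      mul_le_mul hhead hS' hSa'pos.le (hSapos.le.trans hhead)
    linarith

/-! ### The symmetric functions -/

lemma sg_succ (X : ℕ → ℝ) (j k : ℕ) :
    ∑ t ∈ powersetCard (j + 1) (range (k + 1)), ∏ i ∈ t, X i =
    ∑ t ∈ powersetCard (j + 1) (range k), ∏ i ∈ t, X i +
      X k * ∑ t ∈ powersetCard j (range k), ∏ i ∈ t, X i := by
  classical
  rw [range_add_one, powersetCard_succ_insert (by simp), sum_union, sum_image, mul_sum]
  · congr 1
    refine sum_congr rfl fun t ht => ?_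
    rw [mem_powersetCard] at ht
    rw [prod_insert]
    intro h
    have := ht.1 h
    simp at this
  · intro s hs t ht h
    simp only [mem_coe, mem_powersetCard] at hs ht
    have h1 : k ∉ s := fun h => by simpa using hs.1 h
    have h2 : k ∉ t := fun h => by simpa using ht.1 h
    rw [← erase_insert h1, ← erase_insert h2, h]
  · rw [disjoint_left]
    intro t ht ht'
    rw [mem_powersetCard] at ht
    rw [mem_image] at ht'
    obtain ⟨s, -, rfl⟩ := ht'
    have := ht.1 (mem_insert_self k s)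
    simp at this

lemma sg_self (X : ℕ → ℝ) (k : ℕ) :
    ∑ t ∈ powersetCard k (range k), ∏ i ∈ t, X i = ∏ i ∈ range k, X i := by
  have h := powersetCard_self (range k)
  rw [card_range] at h
  rw [h, sum_singleton]

lemma sg_one (X : ℕ → ℝ) (k : ℕ) (hX : ∀ i, i < k + 1 → X i ≠ 0) :
    ∑ t ∈ powersetCard k (range (k + 1)), ∏ i ∈ t, X i =
      S (fun i => 1 / X i) (k + 1) * ∏ i ∈ range (k + 1), X i := by
  induction k with
  | zero =>
    have := hX 0 (by omega)
    simp [S, this]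
  | succ k ih =>
    rw [sg_succ, sg_self, ih fun i hi => hX i (by omega), S_succ _ (k + 1),
      prod_range_succ _ (k + 1)]
    have := hX (k + 1) (by omega)
    field_simp
    ring

lemma sg_two (X : ℕ → ℝ) (k : ℕ) (hX : ∀ i, i < k + 2 → X i ≠ 0) :
    ∑ t ∈ powersetCard k (range (k + 2)), ∏ i ∈ t, X i =
      Q (fun i => 1 / X i) (k + 2) * ∏ i ∈ range (k + 2), X i := by
  induction k with
  | zero =>
    have h0 := hX 0 (by omega)
    have h1 := hX 1 (by omega)
    simp [Q, S, sum_range_succ, prod_range_succ]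
    field_simp
  | succ k ih =>
    rw [sg_succ, sg_one X (k + 1) fun i hi => hX i (by omega), ih fun i hi => hX i (by omega),
      Q_succ _ (k + 2), prod_range_succ _ (k + 2)]
    have := hX (k + 2) (by omega)
    field_simp
    ring

lemma sum_v (f : ℕ → ℝ) (n : ℕ) : ∑ i ∈ Icc 1 n, f i = S (fun i => f (i + 1)) n := by
  induction n with
  | zero => simp [S]
  | succ n ih => rw [sum_Icc_succ_top (by omega), S_succ, ih]

lemma sum_vv (f : ℕ → ℝ) (n : ℕ) :
    ∑ i ∈ Icc 1 n, ∑ j ∈ Icc (i + 1) n, f i * f j = Q (fun i => f (i + 1)) n := by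
  induction n with
  | zero => simp [Q]
  | succ n ih =>
    rw [sum_Icc_succ_top (by omega), Q_succ, ← ih, ← sum_v f n]
    have h1 : ∑ i ∈ Icc 1 n, ∑ j ∈ Icc (i + 1) (n + 1), f i * f j =
        ∑ i ∈ Icc 1 n, (∑ j ∈ Icc (i + 1) n, f i * f j + f i * f (n + 1)) := by
      refine sum_congr rfl fun i hi => ?_
      rw [mem_Icc] at hi
      rw [sum_Icc_succ_top (by omega)]
    rw [h1, sum_add_distrib, ← sum_mul]
    have h2 : Icc (n + 1 + 1) (n + 1) = ∅ := Icc_eq_empty (by omega)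
    rw [h2, sum_empty]
    ring

/-- the sequence `1, 2, 4, 15, 219, ...`, indexed from `1` -/
def v : ℕ → ℕ
  | 0 => 1
  | k + 1 => z k

/-- There is a sequence `v` of natural numbers with `v 1 = 1`, `v 2 = 2` and, for `n ≥ 2`,
`v (n + 1) = 1 + (∑_{i ≤ n} 1 / v i) / (1 - ∑_{i < j ≤ n} 1 / (v i * v j))`
(these conditions determine `v 1, v 2, ...`), such that for all `n ≥ 2` every tuple of positive
integers `x_1 ≤ ... ≤ x_n` with `σ_{n-2}(x) = σ_n(x)` has product at most
`v 1 * ... * v (n - 1) * (v n - 1)`.  Here `σ_j(x)` is the sum over all `j`-element subsets `t` of the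
index set of the products of the `x_i` with `i ∈ t`. -/
theorem result : ∃ v : ℕ → ℕ,
    (v 1 = 1 ∧ v 2 = 2 ∧ ∀ n : ℕ, 2 ≤ n → (v (n + 1) : ℚ) =
      1 + (∑ i ∈ Icc 1 n, 1 / (v i : ℚ)) /
        (1 - ∑ i ∈ Icc 1 n, ∑ j ∈ Icc (i + 1) n, 1 / ((v i : ℚ) * (v j : ℚ)))) ∧
    ∀ n : ℕ, 2 ≤ n → ∀ x : Fin n → ℕ, (∀ i, 1 ≤ x i) → Monotone x →
      ∑ t ∈ powersetCard (n - 2) (univ : Finset (Fin n)), ∏ i ∈ t, x i =
        ∑ t ∈ powersetCard n (univ : Finset (Fin n)), ∏ i ∈ t, x i →
      ∏ i, x i ≤ (∏ i ∈ Icc 1 (n - 1), v i) * (v n - 1) := by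
  refine ⟨v, ⟨by decide, by decide, ?_⟩, ?_⟩
  · intro n hn
    have h1 : (v (n + 1) : ℝ) = 1 + (∑ i ∈ Icc 1 n, 1 / (v i : ℝ)) /
        (1 - ∑ i ∈ Icc 1 n, ∑ j ∈ Icc (i + 1) n, 1 / ((v i : ℝ) * (v j : ℝ))) := by
      have h2 : ∑ i ∈ Icc 1 n, 1 / (v i : ℝ) = S bz n := sum_v (fun i => 1 / (v i : ℝ)) n
      have h3 : ∑ i ∈ Icc 1 n, ∑ j ∈ Icc (i + 1) n, 1 / ((v i : ℝ) * (v j : ℝ)) = Q bz n := by
        have h4 := sum_vv (fun i => 1 / (v i : ℝ)) n
        have h5 : Q (fun i => 1 / (v (i + 1) : ℝ)) n = Q bz n := rfl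
        rw [← h5, ← h4]
        refine sum_congr rfl fun i _ => sum_congr rfl fun j _ => ?_
        rw [one_div_mul_one_div]
      have hP : (0 : ℝ) < (ps n).1 := by exact_mod_cast P_pos n
      have h6 : S bz n = ((ps n).2 : ℝ) / (ps n).1 := by
        rw [eq_div_iff hP.ne']
        exact S_bz n
      rw [h2, h3, Q_bz, h6]
      show ((1 + (ps n).2 : ℕ) : ℝ) = _
      push_cast
      field_simp
      ring
    have h7 : (((v (n + 1) : ℚ)) : ℝ) = ((1 + (∑ i ∈ Icc 1 n, 1 / (v i : ℚ)) /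
        (1 - ∑ i ∈ Icc 1 n, ∑ j ∈ Icc (i + 1) n, 1 / ((v i : ℚ) * (v j : ℚ))) : ℚ) : ℝ) := by
      push_cast
      exact h1
    exact_mod_cast h7
  · intro n hn x hx hmono hσ
    obtain ⟨k, rfl⟩ : ∃ k, n = k + 2 := ⟨n - 2, by omega⟩
    set X : ℕ → ℕ := fun i => if h : i < k + 2 then x ⟨i, h⟩ else 1 with hX
    have hXx : ∀ i : Fin (k + 2), X i = x i := fun i => by
      rw [hX]
      simp
    have hXpos : ∀ i, i < k + 2 → 0 < X i := fun i hi => by
      have := hXx ⟨i, hi⟩
      simp only at this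
      rw [this]
      exact hx _
    have hXmono : ∀ i, i + 1 < k + 2 → X i ≤ X (i + 1) := fun i hi => by
      have h1 := hXx ⟨i, by omega⟩
      have h2 := hXx ⟨i + 1, hi⟩
      simp only at h1 h2
      rw [h1, h2]
      exact hmono (by simp [Fin.le_def])
    have hmap : (univ : Finset (Fin (k + 2))).map Fin.valEmbedding = range (k + 2) := by
      rw [Fin.map_valEmbedding_univ]
      ext
      simp
    have hsg : ∀ j, ((∑ t ∈ powersetCard j (univ : Finset (Fin (k + 2))), ∏ i ∈ t, x i : ℕ) : ℝ) =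
        ∑ t ∈ powersetCard j (range (k + 2)), ∏ i ∈ t, (X i : ℝ) := by
      intro j
      rw [← hmap, powersetCard_map, sum_map]
      push_cast
      refine sum_congr rfl fun t _ => ?_
      simp only [RelEmbedding.coe_toEmbedding, mapEmbedding_apply, prod_map, Fin.valEmbedding_apply]
      exact prod_congr rfl fun i _ => by rw [hXx]
    have hprod : ∏ i, x i = ∏ i ∈ range (k + 2), X i := by
      rw [← hmap, prod_map]
      exact prod_congr rfl fun i _ => (hXx i).symm
    have h1 : ((∑ t ∈ powersetCard (k + 2 - 2) (univ : Finset (Fin (k + 2))), ∏ i ∈ t, x i : ℕ) : ℝ)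
        = ((∑ t ∈ powersetCard (k + 2) (univ : Finset (Fin (k + 2))), ∏ i ∈ t, x i : ℕ) : ℝ) := by
      rw [hσ]
    rw [hsg, hsg, show k + 2 - 2 = k by omega, sg_self, sg_two] at h1
    swap
    · intro i hi
      have := hXpos i hi
      positivity
    have hPpos : (0 : ℝ) < ∏ i ∈ range (k + 2), (X i : ℝ) := prod_pos fun i hi => by
      have := hXpos i (mem_range.1 hi)
      positivity
    have hQ : Q (fun i => 1 / (X i : ℝ)) (k + 2) = 1 := by
      have h2 : Q (fun i => 1 / (X i : ℝ)) (k + 2) * ∏ i ∈ range (k + 2), (X i : ℝ) =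
          1 * ∏ i ∈ range (k + 2), (X i : ℝ) := by rw [one_mul]; exact h1
      exact mul_right_cancel₀ hPpos.ne' h2
    have h3 := core (k + 2) hn X hXpos hXmono hQ
    rw [hprod]
    refine h3.trans (le_of_eq ?_)
    have h4 : ∏ i ∈ Icc 1 (k + 2 - 1), v i = (ps (k + 2 - 1)).1 := by
      rw [ps_fst, show k + 2 - 1 = k + 1 by omega]
      generalize k + 1 = m
      induction m with
      | zero => simp
      | succ m ih => rw [prod_Icc_succ_top (by omega), prod_range_succ, ih]; rfl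
    have h5 : v (k + 2) - 1 = (ps (k + 2 - 1)).2 := by
      show 1 + (ps (k + 1)).2 - 1 = (ps (k + 1)).2
      omega
    rw [h4, h5]

end Pool.Agent.Results.MP_15ce38_nt.ProductBound
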